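import Pool.Agent.TH213.EQ.NoProd3

/-!
# Equisingularity strata are not local analytic products after a blowing-up

Let `V` be the irreducible hypersurface `x⁴ + y⁴ + t x² y² + z⁵ = 0` of `ℂ⁴` (coordinates
`X₀ = x`, `X₁ = y`, `X₂ = t`, `X₃ = z`), let `W ⊂ V` be the `t`-axis and let `Q` be the origin.

* `V` is equisingular at `Q` along `W`, in the sense of Zariski's generic linear projections
  (indeed `V` is equisingular along `W` at all points of `W` near `Q`).
* Let `T* : V* → V` be the blowing-up of `W`. The fibre `L*(Q)` consists of four concurrent lines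
  of the projective plane. Their common point `Q*` is a simple point of `V*`, and so the stratum
  `S*` of `𝔖* = T*⁻¹(W₁)` which contains `Q*` is the set of the simple points of `V*` in `𝔖*`.
* There are no neighborhoods `N₁` of `Q` in `W₁`, `N₂` of `Q*` in `L*(Q) ∩ S*` and `N₃` of `Q*` in
  `S*` with an analytic isomorphism `φ : N₁ × N₂ → N₃` such that `T* ∘ φ` is the first projection.
-/

set_option autoImplicit false

namespace Pool.Agent.Results.MP_e920bf_ag.NoLocalProduct

open MvPolynomial Pool.Agent.TH213.EQ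

theorem result :
    ∃ (f : MvPolynomial (Fin (3 + 1)) ℂ) (g : Fin (2 + 1) → MvPolynomial (Fin (3 + 1)) ℂ)
      (Q : Fin (3 + 1) → ℂ) (Qs : AP (3 + 1) 2),
      Irreducible f ∧ (idealOf g).IsPrime ∧ f ∈ idealOf g ∧
      Q ∈ Eqs 3 f (idealOf g) ∧ Qs ∈ blowup f g ∧ Qs.1 = Q ∧ IsSimplePoint 3 (blowup f g) Qs ∧
      ¬ LocalProduct (Eqs 3 f (idealOf g)) (simpleStratum 3 f g) Q Qs := by
  have hE : QQ 0 ∈ Eqs 3 ff WW := Eqs_near.self_of_nhds
  have hz := zz_mem 0 0 0 hE (by ring)
  have hS : simpleStratum 3 ff gg = SS := by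
    unfold simpleStratum SS
    rw [span_gg]
    rfl
  refine ⟨ff, gg, QQ 0, zz 0 0 0, ff_irreducible, ?_, ?_, ?_, hz.1, rfl, hz.2.2, ?_⟩
  · rw [span_gg]; exact WW_prime
  · rw [span_gg]; exact inSing_ff.1
  · rw [span_gg]; exact hE
  · rw [span_gg, hS]; exact no_product

end Pool.Agent.Results.MP_e920bf_ag.NoLocalProduct
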